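import Pool.Agent.H852R2.DM.Defs

/-!
Project DM (helper852), task CHAIN: iterating SHRINK.  The statement of SHRINK is a hypothesis of
`CHAIN.of_shrink`.
-/

namespace DM852
open RC14 RC852 Finset Filter Equiv

namespace CHAIN

theorem len_one {G : Type*} [Group G] {k : ℕ} (y : Fin k → G) : Len y 0 (1 : G) :=
  ⟨[], by simp, by simp⟩

theorem len_mono {G : Type*} [Group G] {k : ℕ} {y : Fin k → G} {L L' : ℕ} {g : G}
    (h : Len y L g) (hL : L ≤ L') : Len y L' g := by
  obtain ⟨l, hl, hp⟩ := h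
  exact ⟨l, hl.trans hL, hp⟩

theorem len_mul {G : Type*} [Group G] {k : ℕ} {y : Fin k → G} {L L' : ℕ} {g g' : G}
    (h : Len y L g) (h' : Len y L' g') : Len y (L + L') (g * g') := by
  obtain ⟨l, hl, hp⟩ := h
  obtain ⟨l', hl', hp'⟩ := h'
  refine ⟨l ++ l', ?_, ?_⟩
  · rw [List.length_append]; omega
  · rw [List.map_append, List.prod_append, hp, hp']

theorem sl_flip {G : Type*} [Group G] {k : ℕ} (y : Fin k → G) (a : Fin k × Bool) :
    sl y (a.1, !a.2) = (sl y a)⁻¹ := by
  obtain ⟨i, b⟩ := a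
  cases b <;> simp [sl]

theorem len_inv {G : Type*} [Group G] {k : ℕ} {y : Fin k → G} {L : ℕ} {g : G}
    (h : Len y L g) : Len y L g⁻¹ := by
  obtain ⟨l, hl, hp⟩ := h
  refine ⟨(l.map fun a => (a.1, !a.2)).reverse, by simpa using hl, ?_⟩
  rw [← hp, List.prod_inv_reverse, List.map_reverse, List.map_map, List.map_map]
  congr 2
  apply List.map_congr_left
  intro a _
  exact sl_flip y a

/-- the length of the `i`-th element of the chain -/
def LL (L h : ℕ) : ℕ → ℕ
  | 0 => L
  | (i + 1) => 2 * LL L h i + 2 * (L + 2 * h)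

theorem LL_eq (L h i : ℕ) : LL L h i + 2 * (L + 2 * h) = 2 ^ i * (3 * L + 4 * h) := by
  induction i with
  | zero => simp only [LL, pow_zero, one_mul]; omega
  | succ i ih =>
    have : LL L h (i + 1) + 2 * (L + 2 * h) = 2 * (LL L h i + 2 * (L + 2 * h)) := by
      simp only [LL]; ring
    rw [this, ih, pow_succ]; ring

/-- `CHAIN` from the statement of `SHRINK` -/
theorem of_shrink (hS : ∀ᶠ n : ℕ in atTop, ∀ (K : Type) [Fintype K] [Nonempty K]
    (g : K → Perm (Fin n)), Mix2 g → ∀ s r : Perm (Fin n), 10 * r.support.card ≤ n →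
    1000 * n ≤ s.support.card * r.support.card →
    ∃ v : K, (s.support.card * r.support.card : ℝ) / (5 * n) ≤
        (s⁻¹ * (g v * r * (g v)⁻¹)⁻¹ * s * (g v * r * (g v)⁻¹)).support.card ∧
      ((s⁻¹ * (g v * r * (g v)⁻¹)⁻¹ * s * (g v * r * (g v)⁻¹)).support.card : ℝ) ≤
        5 * (s.support.card * r.support.card) / n)
    (a : ℝ) (ha : 0 < a) (ha1 : a ≤ 1 / 100) : ∀ᶠ n : ℕ in atTop,
    ∀ (k : ℕ) (y : Fin k → Alt n) (K : Type) [Fintype K] [Nonempty K] (g : K → Alt n) (h L : ℕ),
    Mix2 (fun v => (g v : Perm (Fin n))) → (∀ v, Len y h (g v)) →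
    ∀ r : Alt n, Len y L r → a / 4 * n ≤ ((r : Perm (Fin n)).support.card : ℝ) →
      ((r : Perm (Fin n)).support.card : ℝ) ≤ a * n → ∀ t : ℝ, (n : ℝ) ^ (1 / 4 : ℝ) ≤ t →
      t ≤ a / 4 * n →
    ∃ s : Alt n, a / 20 * t ≤ ((s : Perm (Fin n)).support.card : ℝ) ∧
      ((s : Perm (Fin n)).support.card : ℝ) ≤ t ∧
      ∃ L' : ℕ, Len y L' s ∧
        (L' : ℝ) ≤ 8 * (L + h) * (n : ℝ) ^ (Real.log 2 / Real.log (1 / (5 * a))) := by
  have hlarge : ∀ᶠ n : ℕ in atTop, 4000 / a ≤ (n : ℝ) ^ (1 / 4 : ℝ) :=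
    ((tendsto_rpow_atTop (by norm_num : (0:ℝ) < 1 / 4)).comp
      tendsto_natCast_atTop_atTop).eventually_ge_atTop _
  filter_upwards [hS, hlarge, eventually_ge_atTop 1] with n hSn hbig hn1
  intro k y K _ _ g h L hMix hgLen r hrLen hr1 hr2 t ht1 ht2
  have hn : (1 : ℝ) ≤ n := by exact_mod_cast hn1
  have hn0 : (0 : ℝ) < n := by linarith
  have h4000 : (4000 : ℝ) ≤ a * (n : ℝ) ^ (1 / 4 : ℝ) := by
    rw [div_le_iff₀ ha] at hbig; linarith
  have ht1' : (1 : ℝ) ≤ t := by
    have : (1 : ℝ) ≤ (n : ℝ) ^ (1 / 4 : ℝ) := Real.one_le_rpow hn (by norm_num)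
    linarith
  set γ : ℝ := Real.log 2 / Real.log (1 / (5 * a)) with hγ
  have hloga : 0 < Real.log (1 / (5 * a)) := by
    apply Real.log_pos
    rw [lt_div_iff₀ (by positivity)]
    linarith
  have hγ0 : 0 < γ := div_pos (Real.log_pos (by norm_num)) hloga
  have hnγ : (1 : ℝ) ≤ (n : ℝ) ^ γ := Real.one_le_rpow hn hγ0.le
  -- bound for the number of steps
  have hstep : ∀ i : ℕ, t < (5 * a) ^ i * (a * n) → (2 : ℝ) ^ i ≤ (n : ℝ) ^ γ := by
    intro i hi
    have h1 : (1 : ℝ) < (5 * a) ^ i * (a * n) := by linarith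
    have h2 : (1 / (5 * a)) ^ i ≤ (n : ℝ) := by
      rw [one_div, inv_pow, inv_le_iff_one_le_mul₀ (by positivity)]
      have h3 : (5 * a) ^ i * (a * n) ≤ (5 * a) ^ i * n := by
        apply mul_le_mul_of_nonneg_left _ (by positivity)
        nlinarith
      linarith [mul_comm ((5 * a) ^ i) (n : ℝ)]
    have h4 : (i : ℝ) * Real.log (1 / (5 * a)) ≤ Real.log n := by
      have := Real.log_le_log (by positivity) h2
      rwa [Real.log_pow] at this
    have h5 : (i : ℝ) ≤ Real.log n / Real.log (1 / (5 * a)) := by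
      rwa [le_div_iff₀ hloga]
    calc (2 : ℝ) ^ i = Real.exp (i * Real.log 2) := by
          rw [mul_comm, Real.exp_mul, Real.exp_log (by norm_num), Real.rpow_natCast]
      _ ≤ Real.exp (Real.log n / Real.log (1 / (5 * a)) * Real.log 2) := by
          apply Real.exp_le_exp.mpr
          exact mul_le_mul_of_nonneg_right h5 (Real.log_nonneg (by norm_num))
      _ = (n : ℝ) ^ γ := by
          rw [Real.rpow_def_of_pos hn0, hγ]
          congr 1
          ring
  have hcoe : ∀ (s : Alt n) (v : K), ((s⁻¹ * (g v * r * (g v)⁻¹)⁻¹ * s * (g v * r * (g v)⁻¹) :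
      Alt n) : Perm (Fin n)) = (s : Perm (Fin n))⁻¹ * ((g v : Perm (Fin n)) * (r : Perm (Fin n)) *
        (g v : Perm (Fin n))⁻¹)⁻¹ * (s : Perm (Fin n)) *
          ((g v : Perm (Fin n)) * (r : Perm (Fin n)) * (g v : Perm (Fin n))⁻¹) := by
    intro s v
    rfl
  -- the induction
  have main : ∀ i : ℕ, (∃ s : Alt n, a / 20 * t ≤ ((s : Perm (Fin n)).support.card : ℝ) ∧
      ((s : Perm (Fin n)).support.card : ℝ) ≤ t ∧
      ∃ L' : ℕ, Len y L' s ∧ (L' : ℝ) ≤ 8 * (L + h) * (n : ℝ) ^ γ) ∨
      (∃ s : Alt n, t < ((s : Perm (Fin n)).support.card : ℝ) ∧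
        ((s : Perm (Fin n)).support.card : ℝ) ≤ (5 * a) ^ i * (a * n) ∧ Len y (LL L h i) s) := by
    intro i
    induction i with
    | zero =>
      by_cases hrt : t < ((r : Perm (Fin n)).support.card : ℝ)
      · right
        exact ⟨r, hrt, by simpa using hr2, hrLen⟩
      · left
        refine ⟨r, ?_, not_lt.mp hrt, L, hrLen, ?_⟩
        · have : a / 20 * t ≤ 1 * t := mul_le_mul_of_nonneg_right (by linarith) (by linarith)
          linarith
        · have hL0 : (0 : ℝ) ≤ L := Nat.cast_nonneg L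
          have hh0 : (0 : ℝ) ≤ h := Nat.cast_nonneg h
          have : 8 * ((L : ℝ) + h) * 1 ≤ 8 * (L + h) * (n : ℝ) ^ γ :=
            mul_le_mul_of_nonneg_left hnγ (by positivity)
          linarith
    | succ i ih =>
      rcases ih with hgood | ⟨s, hs1, hs2, hsLen⟩
      · exact Or.inl hgood
      · have h10 : 10 * (r : Perm (Fin n)).support.card ≤ n := by
          have : ((10 * (r : Perm (Fin n)).support.card : ℕ) : ℝ) ≤ (n : ℝ) := by
            push_cast
            nlinarith
          exact_mod_cast this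
        have h1000 : 1000 * n ≤ (s : Perm (Fin n)).support.card *
            (r : Perm (Fin n)).support.card := by
          have h1 : (n : ℝ) ^ (1 / 4 : ℝ) * (a / 4 * n) ≤
              ((s : Perm (Fin n)).support.card : ℝ) * (r : Perm (Fin n)).support.card :=
            mul_le_mul (by linarith) hr1 (by positivity) (Nat.cast_nonneg _)
          have h2 : 1000 * (n : ℝ) ≤ (n : ℝ) ^ (1 / 4 : ℝ) * (a / 4 * n) := by
            have : (n : ℝ) ^ (1 / 4 : ℝ) * (a / 4 * n) = (a * (n : ℝ) ^ (1 / 4 : ℝ)) / 4 * n := by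
              ring
            rw [this]
            apply mul_le_mul_of_nonneg_right _ hn0.le
            linarith
          have : ((1000 * n : ℕ) : ℝ) ≤ (((s : Perm (Fin n)).support.card *
            (r : Perm (Fin n)).support.card : ℕ) : ℝ) := by
            push_cast
            linarith
          exact_mod_cast this
        obtain ⟨v, hv1, hv2⟩ := hSn K (fun v => (g v : Perm (Fin n))) hMix (s : Perm (Fin n))
          (r : Perm (Fin n)) h10 h1000
        set s' : Alt n := s⁻¹ * (g v * r * (g v)⁻¹)⁻¹ * s * (g v * r * (g v)⁻¹) with hs'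
        simp only [← hcoe s v, ← hs'] at hv1 hv2
        have hs0 : (0 : ℝ) < ((s : Perm (Fin n)).support.card : ℝ) := by linarith
        have hlow : a / 20 * t ≤ ((s' : Perm (Fin n)).support.card : ℝ) := by
          refine le_trans ?_ hv1
          rw [le_div_iff₀ (by positivity)]
          have h1 : t * (a / 4 * n) ≤
              ((s : Perm (Fin n)).support.card : ℝ) * (r : Perm (Fin n)).support.card :=
            mul_le_mul hs1.le hr1 (by positivity) hs0.le
          linarith
        have hup : ((s' : Perm (Fin n)).support.card : ℝ) ≤ (5 * a) ^ (i + 1) * (a * n) := by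
          refine le_trans hv2 ?_
          rw [div_le_iff₀ hn0]
          have h1 : ((s : Perm (Fin n)).support.card : ℝ) * (r : Perm (Fin n)).support.card ≤
              ((5 * a) ^ i * (a * n)) * (a * n) :=
            mul_le_mul hs2 hr2 (Nat.cast_nonneg _) (by positivity)
          have h2 : (5 * a) ^ (i + 1) * (a * n) * n = 5 * (((5 * a) ^ i * (a * n)) * (a * n)) := by
            rw [pow_succ]; ring
          rw [h2]
          linarith
        have hrg : Len y (h + L + h) (g v * r * (g v)⁻¹) :=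
          len_mul (len_mul (hgLen v) hrLen) (len_inv (hgLen v))
        have hlen : Len y (LL L h (i + 1)) s' := by
          have := len_mul (len_mul (len_mul (len_inv hsLen) (len_inv hrg)) hsLen) hrg
          refine len_mono this ?_
          simp only [LL]
          omega
        by_cases hst : t < ((s' : Perm (Fin n)).support.card : ℝ)
        · exact Or.inr ⟨s', hst, hup, hlen⟩
        · left
          refine ⟨s', hlow, not_lt.mp hst, LL L h (i + 1), hlen, ?_⟩
          have h2i : (2 : ℝ) ^ i ≤ (n : ℝ) ^ γ := hstep i (lt_of_lt_of_le hs1 hs2)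
          have hLL : ((LL L h (i + 1) : ℕ) : ℝ) ≤ 2 ^ (i + 1) * (3 * L + 4 * h) := by
            have := LL_eq L h (i + 1)
            have h' : LL L h (i + 1) ≤ 2 ^ (i + 1) * (3 * L + 4 * h) := by omega
            have h'' : ((LL L h (i + 1) : ℕ) : ℝ) ≤ ((2 ^ (i + 1) * (3 * L + 4 * h) : ℕ) : ℝ) := by
              exact_mod_cast h'
            push_cast at h''
            exact h''
          have hL0 : (0 : ℝ) ≤ L := Nat.cast_nonneg L
          have hh0 : (0 : ℝ) ≤ h := Nat.cast_nonneg h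
          calc ((LL L h (i + 1) : ℕ) : ℝ) ≤ 2 ^ (i + 1) * (3 * L + 4 * h) := hLL
            _ = 2 ^ i * (6 * L + 8 * h) := by rw [pow_succ]; ring
            _ ≤ (n : ℝ) ^ γ * (8 * (L + h)) := by
                apply mul_le_mul h2i (by linarith) (by positivity) (by positivity)
            _ = 8 * (L + h) * (n : ℝ) ^ γ := by ring
  -- conclusion
  obtain ⟨i, hi⟩ : ∃ i : ℕ, (5 * a) ^ i < 1 / (a * n) :=
    exists_pow_lt_of_lt_one (by positivity) (by linarith)
  rcases main i with hgood | ⟨s, hs1, hs2, -⟩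
  · exact hgood
  · exfalso
    rw [lt_div_iff₀ (by positivity)] at hi
    linarith

end CHAIN

end DM852
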